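import Pool.Agent.Lib.MP_cfac74_al.Tab.Chk
import Pool.Agent.Lib.MP_cfac74_al.Ch.Orbit

/-!
# MP_cfac74_al : points, lines and planes of the tables
-/

set_option autoImplicit false
set_option linter.unusedSectionVars false

namespace Pool.Agent.Lib.MP_cfac74_al.Tab

open Finset Pool.Agent.Lib.MP_cfac74_al.Dec Pool.Agent.Lib.MP_cfac74_al.Ch

/-- packed list of codes (16 bits each) -/
noncomputable def pkc (l : List ℕ) : ℕ :=
  List.rec (motive := fun _ => ℕ) 0 (fun u _ ih => Nat.add u (Nat.mul 65536 ih)) l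

/-- entry of a 16 bit array -/
noncomputable def l16 (A i : ℕ) : ℕ := Nat.mod (Nat.shiftRight A (Nat.mul 16 i)) 65536

theorem l16_eq (A i : ℕ) : l16 A i = A / 65536 ^ i % 65536 := by
  have h : l16 A i = A >>> (16 * i) % 65536 := rfl
  have h2 : (65536 : ℕ) = 2 ^ 16 := by norm_num
  rw [h, Nat.shiftRight_eq_div_pow, pow_mul, ← h2]

theorem pkc_get (l : List ℕ) (hl : ∀ u ∈ l, u < 65536) : ∀ i, l16 (pkc l) i = l.getD i 0 := by
  induction l with
  | nil =>
    intro i
    rw [l16_eq]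
    change 0 / 65536 ^ i % 65536 = 0
    rw [Nat.zero_div]
  | cons u l ih =>
    intro i
    have h : pkc (u :: l) = u + 65536 * pkc l := rfl
    have hu := hl u List.mem_cons_self
    rw [l16_eq, h]
    cases i with
    | zero =>
      rw [pow_zero, Nat.div_one, List.getD_cons_zero]
      omega
    | succ i =>
      rw [show 65536 ^ (i + 1) = 65536 * 65536 ^ i by ring, ← Nat.div_div_eq_div_mul,
        List.getD_cons_succ, ← ih (fun v hv => hl v (List.mem_cons_of_mem _ hv)) i, l16_eq]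
      congr 2
      omega

/-- field `q` of the descriptor of the plane `p` -/
noncomputable def dsc (D p q : ℕ) : ℕ :=
  Nat.mod (Nat.shiftRight D (Nat.add (Nat.mul 64 p) (Nat.mul 16 q))) 65536

/-- check of one line: `i` is the number of the point with code `c` or `c'` -/
noncomputable def chkLn (PC NP c c' i : ℕ) : Bool :=
  @Bool.rec (fun _ => Bool) false
    (@Bool.rec (fun _ => Bool) (Nat.beq (l16 PC i) c') true (Nat.beq (l16 PC i) c)) (Nat.blt i NP)

theorem chkLn_spec {PC NP c c' i : ℕ} (h : chkLn PC NP c c' i = true) :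
    i < NP ∧ (l16 PC i = c ∨ l16 PC i = c') := by
  obtain ⟨h1, h2⟩ := brec_true h
  refine ⟨?_, ?_⟩
  · exact Nat.le_of_ble_eq_true h1
  · cases hc : Nat.beq (l16 PC i) c with
    | true => exact Or.inl (Nat.eq_of_beq_eq_true hc)
    | false =>
      rw [hc] at h2
      exact Or.inr (Nat.eq_of_beq_eq_true h2)

/-- conjunction -/
noncomputable def band (a b : Bool) : Bool := @Bool.rec (fun _ => Bool) false b a

/-- check of one plane with digit lists `d`, `d'` -/
noncomputable def chkPl (PC NP D : ℕ) (d d' : List ℕ) (p : ℕ) : Bool :=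
  band (chkLn PC NP (cod d) (cod (addL d d)) (dsc D p 0))
  (band (chkLn PC NP (cod d') (cod (addL d' d')) (dsc D p 1))
  (band (chkLn PC NP (cod (addL d d')) (cod (addL (addL d d') (addL d d'))) (dsc D p 2))
    (chkLn PC NP (cod (addL d (addL d' d')))
      (cod (addL (addL d (addL d' d')) (addL d (addL d' d')))) (dsc D p 3))))

/-- loop over the planes through a fixed vector -/
noncomputable def chkD (n PC NP D : ℕ) (d' : List ℕ) (us : List ℕ) : ℕ → Bool :=
  List.rec (motive := fun _ => ℕ → Bool) (fun _ => true)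
    (fun u _ ih p => band (chkPl PC NP D (dgs n u) d' p) (ih (Nat.succ p))) us

section

variable {n : ℕ}

theorem add_self3 (y : Fin n → ZMod 3) : y + y = -y := by
  funext j
  rw [Pi.add_apply, Pi.neg_apply]
  generalize y j = a
  revert a
  decide

/-- the points -/
def ptv (n : ℕ) (pts : List ℕ) (i : ℕ) : Fin n → ZMod 3 := dec n (pts.getD i 0)

/-- `i` is the number of the line through `y` -/
def LnOK (n : ℕ) (pts : List ℕ) (NP i : ℕ) (y : Fin n → ZMod 3) : Prop :=
  i < NP ∧ (ptv n pts i = y ∨ ptv n pts i = -y)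

theorem lnOK_of (pts : List ℕ) (hpts : ∀ u ∈ pts, u < 65536) (NP i : ℕ) (y : Fin n → ZMod 3)
    (h : chkLn (pkc pts) NP (cod (dl y)) (cod (addL (dl y) (dl y))) i = true) :
    LnOK n pts NP i y := by
  obtain ⟨h1, h2⟩ := chkLn_spec h
  refine ⟨h1, ?_⟩
  unfold ptv
  rw [pkc_get pts hpts] at h2
  rcases h2 with h2 | h2
  · left; rw [h2, dec_cod]
  · right; rw [h2, addL_dl, dec_cod, add_self3]

/-- the plane `p` of the list is spanned by `b`, `b'` -/
def PlOK (n : ℕ) (pts : List ℕ) (NP D p : ℕ) (b b' : Fin n → ZMod 3) : Prop :=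
  ∀ q : Fin 4, LnOK n pts NP (dsc D p q) ((lineC q).1 • b + (lineC q).2 • b')

theorem chkPl_spec (pts : List ℕ) (hpts : ∀ u ∈ pts, u < 65536) (NP D p : ℕ)
    (b b' : Fin n → ZMod 3) (h : chkPl (pkc pts) NP D (dl b) (dl b') p = true) :
    PlOK n pts NP D p b b' := by
  unfold chkPl band at h
  obtain ⟨h0, h⟩ := brec_true h
  obtain ⟨h1, h⟩ := brec_true h
  obtain ⟨h2, h3⟩ := brec_true h
  rw [addL_dl n b b'] at h2
  rw [addL_dl n b' b', addL_dl n b (b' + b')] at h3
  have e0 : (lineC 0).1 • b + (lineC 0).2 • b' = b := by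
    change (1 : ZMod 3) • b + (0 : ZMod 3) • b' = b
    rw [one_smul, zero_smul, add_zero]
  have e1 : (lineC 1).1 • b + (lineC 1).2 • b' = b' := by
    change (0 : ZMod 3) • b + (1 : ZMod 3) • b' = b'
    rw [one_smul, zero_smul, zero_add]
  have e2 : (lineC 2).1 • b + (lineC 2).2 • b' = b + b' := by
    change (1 : ZMod 3) • b + (1 : ZMod 3) • b' = b + b'
    rw [one_smul, one_smul]
  have e3 : (lineC 3).1 • b + (lineC 3).2 • b' = b + (b' + b') := by
    change (1 : ZMod 3) • b + (2 : ZMod 3) • b' = b + (b' + b')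
    rw [one_smul, two_smul]
  have c0 := lnOK_of pts hpts NP _ b h0
  have c1 := lnOK_of pts hpts NP _ b' h1
  have c2 := lnOK_of pts hpts NP _ (b + b') h2
  have c3 := lnOK_of pts hpts NP _ (b + (b' + b')) h3
  intro q
  fin_cases q
  · change LnOK n pts NP (dsc D p 0) ((lineC 0).1 • b + (lineC 0).2 • b')
    rw [e0]; exact c0
  · change LnOK n pts NP (dsc D p 1) ((lineC 1).1 • b + (lineC 1).2 • b')
    rw [e1]; exact c1
  · change LnOK n pts NP (dsc D p 2) ((lineC 2).1 • b + (lineC 2).2 • b')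
    rw [e2]; exact c2
  · change LnOK n pts NP (dsc D p 3) ((lineC 3).1 • b + (lineC 3).2 • b')
    rw [e3]; exact c3

theorem chkD_spec (pts : List ℕ) (hpts : ∀ u ∈ pts, u < 65536) (NP D u' : ℕ) (us : List ℕ) :
    ∀ p, chkD n (pkc pts) NP D (dgs n u') us p = true →
    ∀ i < us.length, PlOK n pts NP D (p + i) (dec n (us.getD i 0)) (dec n u') := by
  induction us with
  | nil => intro p _ i hi; exact absurd hi (by simp)
  | cons u us ih =>
    intro p h i hi
    obtain ⟨h1, h2⟩ := brec_true (a := chkPl (pkc pts) NP D (dgs n u) (dgs n u') p)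
      (b := chkD n (pkc pts) NP D (dgs n u') us (Nat.succ p)) h
    cases i with
    | zero =>
      rw [add_zero]
      change PlOK n pts NP D p (dec n u) (dec n u')
      apply chkPl_spec pts hpts NP D p
      rw [dl_dec, dl_dec]
      exact h1
    | succ i =>
      have h3 := ih (p + 1) h2 i (by simpa using hi)
      rw [List.getD_cons_succ]
      have : p + (i + 1) = p + 1 + i := by ring
      rw [this]
      exact h3

/-! ### a complete table -/

/-- everything about a geometry -/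
structure Geo (A B : Fin n → Fin n → ZMod 3) (pts TL TE : List ℕ) (D NP NU : ℕ) : Prop where
  lenL : TL.length = 32
  lenE : TE.length = 32
  smallL : Small TL (NP + 1)
  smallE : Small TE NU
  point : ∀ i < NP, LaneOK A B TL i (ptv n pts i) 0
  zero : LaneOK A B TL NP 0 0
  plane : ∀ p < NU, ∃ b b' : Fin n → ZMod 3, LaneOK A B TE p b b' ∧ PlOK n pts NP D p b b'

variable {A B : Fin n → Fin n → ZMod 3} {pts TL TE : List ℕ} {D NP NU : ℕ}

/-- value of a point lane -/
theorem Geo.line_val (G : Geo A B pts TL TE D NP NU) (z : ℕ → ℕ) (hz : ∀ j, 5 ≤ j → z j = 0)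
    (hb : 65536 * ∏ j ∈ range 5, (1 + z j) ≤ W) (i : ℕ) (hi : i < NP) :
    ∃ x : (Fin n → ZMod 3) →+ ZMod 3,
      ((lane (evT TL (monz z 5)) i : ℕ) : ℤ) = Hf A B (kf z) x 0 + (OFF z : ℤ) := by
  refine ⟨dotH (ptv n pts i), ?_⟩
  unfold Hf
  have e : crd (0 : (Fin n → ZMod 3) →+ ZMod 3) = 0 := rfl
  rw [crd_dotH, e]
  exact read_lane G.lenL G.smallL z hz hb (by omega) (G.point i hi)

/-- value of the zero lane -/
theorem Geo.zero_val (G : Geo A B pts TL TE D NP NU) (z : ℕ → ℕ) (hz : ∀ j, 5 ≤ j → z j = 0)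
    (hb : 65536 * ∏ j ∈ range 5, (1 + z j) ≤ W) :
    ((lane (evT TL (monz z 5)) NP : ℕ) : ℤ) = Hf A B (kf z) 0 0 + (OFF z : ℤ) := by
  unfold Hf
  have e : crd (0 : (Fin n → ZMod 3) →+ ZMod 3) = 0 := rfl
  rw [e]
  exact read_lane G.lenL G.smallL z hz hb (by omega) G.zero

/-- values of the lanes of a plane -/
theorem Geo.plane_val (G : Geo A B pts TL TE D NP NU) (z : ℕ → ℕ) (hz : ∀ j, 5 ≤ j → z j = 0)
    (hb : 65536 * ∏ j ∈ range 5, (1 + z j) ≤ W) (p : ℕ) (hp : p < NU) :
    ∃ b b' : (Fin n → ZMod 3) →+ ZMod 3,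
      (∀ q : Fin 4, ((lane (evT TL (monz z 5)) (dsc D p q) : ℕ) : ℤ) =
        Hf A B (kf z) ((lineC q).1 • b + (lineC q).2 • b') 0 + (OFF z : ℤ)) ∧
      ((lane (evT TE (monz z 5)) p : ℕ) : ℤ) = Hf A B (kf z) b b' + (OFF z : ℤ) := by
  obtain ⟨b, b', h1, h2⟩ := G.plane p hp
  refine ⟨dotH b, dotH b', fun q => ?_, ?_⟩
  · obtain ⟨h3, h4⟩ := h2 q
    have e : crd (0 : (Fin n → ZMod 3) →+ ZMod 3) = 0 := rfl
    have e1 : crd ((lineC q).1 • dotH b + (lineC q).2 • dotH b') =
        (lineC q).1 • b + (lineC q).2 • b' := by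
      have h5 : ∀ j, crd ((lineC q).1 • dotH b + (lineC q).2 • dotH b') j =
          (lineC q).1 * crd (dotH b) j + (lineC q).2 * crd (dotH b') j := fun j => rfl
      funext j
      rw [h5, crd_dotH, crd_dotH]
      rfl
    unfold Hf
    rw [e, e1]
    have h6 := read_lane G.lenL G.smallL z hz hb (show dsc D p q < NP + 1 by omega)
      (G.point _ h3)
    rcases h4 with h4 | h4
    · rw [h4] at h6; exact h6
    · rw [h4, Hs_neg] at h6; exact h6
  · unfold Hf
    rw [crd_dotH, crd_dotH]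
    exact read_lane G.lenE G.smallE z hz hb hp h1

end

end Pool.Agent.Lib.MP_cfac74_al.Tab
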