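import Pool.Agent.Lib.MP_cfac74_al.Tab.Def

/-!
# MP_cfac74_al : checking the tables
-/

set_option autoImplicit false
set_option linter.unusedSectionVars false

namespace Pool.Agent.Lib.MP_cfac74_al.Tab

open Finset Pool.Agent.Lib.MP_cfac74_al.Dec Pool.Agent.Lib.MP_cfac74_al.Ch

/-- the offset -/
def OFF (z : ℕ → ℕ) : ℕ := 16384 * ∏ j ∈ range 5, (1 + z j)

/-- lane `p` of the 32 arrays, gathered -/
noncomputable def gth (T : List ℕ) (p : ℕ) : ℕ :=
  List.rec (motive := fun _ => ℕ) 0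
    (fun t _ ih => Nat.add (lane t p) (Nat.mul 1099511627776 ih)) T

theorem gth_eq (T : List ℕ) (p : ℕ) : gth T p = La W T.length (fun S => lane (T.getD S 0) p) := by
  induction T with
  | nil => rw [List.length_nil, La_zero]; rfl
  | cons t T ih =>
    have h : gth (t :: T) p = lane t p + W * gth T p := rfl
    rw [h, ih, List.length_cons, add_comm T.length 1, La_append]
    have h1 : La W 1 (fun S => lane ((t :: T).getD S 0) p) = lane t p := by
      rw [La_succ, La_zero, pow_zero, mul_one, zero_add]; rfl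
    rw [h1, pow_one]
    congr 2
    refine La_congr fun i _ => ?_
    rw [add_comm 1 i, List.getD_cons_succ]

/-- the packed variables, as a list, for `n = 5 + r` coordinates -/
noncomputable def Zl (n : ℕ) : List ℕ := List.ofFn (kf (Zp W 5) : Fin n → ℕ)

/-- all ones in base `W` (32 digits) times the offset -/
def Ofs : ℕ := La W 32 (fun _ => 16384)

section

variable {n : ℕ}

/-- what the lane `p` of the table `T` contains -/
def LaneOK (A B : Fin n → Fin n → ZMod 3) (T : List ℕ) (p : ℕ) (x x' : Fin n → ZMod 3) : Prop :=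
  (∀ S < 32, lane (T.getD S 0) p < 65536) ∧
  ∀ z : ℕ → ℕ, (∀ j, 5 ≤ j → z j = 0) →
    ((∑ S ∈ range 32, lane (T.getD S 0) p * kS 5 z S : ℕ) : ℤ) =
      Hs A B (kf z) x x' + (OFF z : ℤ)

/-- the packed positive part -/
noncomputable def posP (n : ℕ) (Z : List ℕ) (S : List (ℕ × ℕ)) (d d' : List ℕ) : ℕ :=
  Nat.add (pin Z d d') (Nat.mul 3 (sel (Nat.pow 32 (Nat.sub n 1)) (cdR d 0) S))

theorem MA_eval5 {n C : ℕ} {f : (ℕ → ℕ) → ℤ} (hf : MA n C f) (hn5 : 5 ≤ n) :
    ∃ c : ℕ → ℕ, (∀ S, c S ≤ C) ∧ ∀ z, (∀ j, 5 ≤ j → z j = 0) →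
      f z = ((∑ S ∈ range 32, c S * kS 5 z S : ℕ) : ℤ) := by
  have h := MA_eval hf 5 hn5
  rw [show (2 : ℕ) ^ 5 = 32 from rfl] at h
  exact h

theorem pack5 (c : ℕ → ℕ) : ∑ S ∈ range 32, c S * kS 5 (Zp W 5) S = La W 32 c := by
  unfold La
  refine Finset.sum_congr rfl fun S hS => ?_
  have h4 : kS 5 (Zp W 5) S = kS 5 (fun j => W ^ 2 ^ j) S := kS_congr (fun j hj => if_pos hj) S
  rw [h4, kS_pow W 5 S (Finset.mem_range.1 hS)]

theorem OFF_eq (z : ℕ → ℕ) : OFF z = ∑ S ∈ range 32, 16384 * kS 5 z S := by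
  unfold OFF
  rw [← sum_kS 5 z, Finset.mul_sum, show (2 : ℕ) ^ 5 = 32 from rfl]

/-- bookkeeping of the coefficients -/
theorem coef_sum (l c d k : ℕ → ℕ) (h4 : ∀ S < 32, l S = c S + 16384 - d S)
    (hd2 : ∀ S, d S ≤ 8748) :
    ∑ S ∈ range 32, l S * k S + ∑ S ∈ range 32, d S * k S =
      ∑ S ∈ range 32, c S * k S + ∑ S ∈ range 32, 16384 * k S := by
  rw [← Finset.sum_add_distrib, ← Finset.sum_add_distrib]
  refine Finset.sum_congr rfl fun S hS => ?_
  rw [h4 S (Finset.mem_range.1 hS), ← add_mul, ← add_mul]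
  congr 1
  have := hd2 S
  omega

theorem lane_ok (hn5 : 5 ≤ n) (hn7 : n ≤ 7) (A B : Fin n → Fin n → ZMod 3) (T : List ℕ)
    (hT : T.length = 32) (p : ℕ) (x x' : Fin n → ZMod 3) (S : List (ℕ × ℕ))
    (hS : S = supR (Zl n) (RW A B) (cdF (dl x')))
    (h : gth T p + tot S = posP n (Zl n) S (dl x) (dl x') + Ofs) : LaneOK A B T p x x' := by
  set P := posP n (Zl n) S (dl x) (dl x') with hP
  have hn : 0 < n := by omega
  have hpow : 3 ^ n ≤ 2187 := by
    calc 3 ^ n ≤ 3 ^ 7 := Nat.pow_le_pow_right (by norm_num) hn7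
      _ = 2187 := by norm_num
  have h1 : ((P : ℕ) : ℤ) = TPz A B x x' (Zp W 5) := by
    rw [hP, ← sel_TPz hn hn7 A B x x' (Zp W 5), hS]
    rfl
  have h2 : ((tot S : ℕ) : ℤ) = TTz A B x' (Zp W 5) := by
    rw [hS]; exact tot_TTz hn7 A B x' (Zp W 5)
  obtain ⟨c, hc, hc'⟩ := MA_eval5 (MA_TPz A B x x') hn5
  obtain ⟨d, hd, hd'⟩ := MA_eval5 (MA_TTz A B x') hn5
  have hc2 : ∀ S, c S ≤ 28431 := fun S => (hc S).trans (by omega)
  have hd2 : ∀ S, d S ≤ 8748 := fun S => (hd S).trans (by omega)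
  have hZ0 : ∀ j, 5 ≤ j → Zp W 5 j = 0 := fun j hj => if_neg (by omega)
  have hPc : P = La W 32 c := by
    have := hc' (Zp W 5) hZ0
    rw [← h1, pack5] at this
    exact Int.ofNat.inj this
  have hSd : tot S = La W 32 d := by
    have := hd' (Zp W 5) hZ0
    rw [← h2, pack5] at this
    exact Int.ofNat.inj this
  have hW : (65536 : ℕ) < W := by norm_num [W]
  have h3 : La W 32 (fun S => lane (T.getD S 0) p) = La W 32 (fun S => c S + 16384 - d S) := by
    have e1 : gth T p = La W 32 (fun S => lane (T.getD S 0) p) := by rw [gth_eq, hT]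
    have e2 : La W 32 (fun S => c S + 16384 - d S) + La W 32 d = La W 32 c + Ofs := by
      unfold Ofs
      rw [← La_add, ← La_add]
      refine La_congr fun S _ => ?_
      have := hd2 S
      omega
    rw [hPc, hSd, e1] at h
    omega
  have h4 : ∀ S < 32, lane (T.getD S 0) p = c S + 16384 - d S := by
    intro S hS
    refine La_inj W 32 W_pos _ _ (fun i _ => lane_lt _ _) (fun i _ => ?_) h3 S hS
    have := hc2 i
    omega
  refine ⟨fun S hS => ?_, fun z hz => ?_⟩
  · rw [h4 S hS]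
    have := hc2 S
    omega
  · have h6 := coef_sum (fun S => lane (T.getD S 0) p) c d (kS 5 z) h4 hd2
    rw [Hs_TP, hc' z hz, hd' z hz, OFF_eq z]
    have h7 := congrArg (fun m : ℕ => (m : ℤ)) h6
    simp only [Nat.cast_add] at h7
    linarith

/-- all lanes below `N` are small -/
def Small (T : List ℕ) (N : ℕ) : Prop := ∀ p < N, ∀ S < 32, lane (T.getD S 0) p < 65536

/-- **reading a value** -/
theorem read_lane {A B : Fin n → Fin n → ZMod 3} {T : List ℕ} (hT : T.length = 32) {N : ℕ}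
    (hs : Small T N) (z : ℕ → ℕ)
    (hz : ∀ j, 5 ≤ j → z j = 0) (hb : 65536 * ∏ j ∈ range 5, (1 + z j) ≤ W) {p : ℕ} (hp : p < N)
    {x x' : Fin n → ZMod 3} (h : LaneOK A B T p x x') :
    ((lane (evT T (monz z 5)) p : ℕ) : ℤ) = Hs A B (kf z) x x' + (OFF z : ℤ) := by
  rw [evT_monz T z 5 (by rw [hT]; norm_num)]
  have e32 : (2 : ℕ) ^ 5 = 32 := rfl
  rw [e32, lane_lin 32 (fun S => T.getD S 0) (kS 5 z) p]
  · exact h.2 z hz
  · intro q hq
    have h1 := hs q (by omega)
    by_cases h0 : ∑ S ∈ range 32, kS 5 z S = 0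
    · have : ∀ S ∈ range 32, kS 5 z S = 0 := fun S hS => (Finset.sum_eq_zero_iff.1 h0) S hS
      rw [Finset.sum_eq_zero fun S hS => by rw [this S hS, mul_zero]]
      exact W_pos
    · have h2 : ∑ S ∈ range 32, lane (T.getD S 0) q * kS 5 z S <
          ∑ S ∈ range 32, 65536 * kS 5 z S := by
        obtain ⟨S₀, hS₀, hne⟩ := Finset.exists_ne_zero_of_sum_ne_zero h0
        refine Finset.sum_lt_sum (fun S hS => ?_) ⟨S₀, hS₀, ?_⟩
        · exact Nat.mul_le_mul_right _ (h1 S (Finset.mem_range.1 hS)).le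
        · exact Nat.mul_lt_mul_of_pos_right (h1 S₀ (Finset.mem_range.1 hS₀)) (Nat.pos_of_ne_zero hne)
      rw [← Finset.mul_sum] at h2
      have h3 := sum_kS 5 z
      rw [e32] at h3
      rw [h3] at h2
      omega

theorem Hs_neg (A B : Fin n → Fin n → ZMod 3) (k : Fin n → ℕ) (x x' : Fin n → ZMod 3) :
    Hs A B k (-x) x' = Hs A B k x x' := by
  have hS : ∀ C : Fin n → Fin n → ZMod 3, Sg C k (-x) x' = Sg C k x x' := by
    intro C
    unfold Sg
    refine Finset.sum_congr rfl fun v _ => ?_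
    have e1 : ∑ j, (-x) j * v j = -(∑ j, x j * v j) := by
      rw [← Finset.sum_neg_distrib]
      exact Finset.sum_congr rfl fun j _ => by rw [Pi.neg_apply]; ring
    have e2 : cc (-(∑ j, x j * v j)) = cc (∑ j, x j * v j) := by
      unfold cc; rw [if_congr neg_eq_zero rfl rfl]
    rw [e1, e2]
  have hP : Pz k (-x) x' = Pz k x x' := by
    unfold Pz
    refine Finset.prod_congr rfl fun j _ => ?_
    rw [Pi.neg_apply, if_congr (and_congr_left' neg_eq_zero) rfl rfl]
  unfold Hs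
  rw [hS, hS, hS, hS, hP]

theorem LaneOK.neg {A B : Fin n → Fin n → ZMod 3} {T : List ℕ} {p : ℕ} {x x' : Fin n → ZMod 3}
    (h : LaneOK A B T p x x') : LaneOK A B T p (-x) x' :=
  ⟨h.1, fun z hz => by rw [Hs_neg]; exact h.2 z hz⟩

/-! ### kernel checks -/

/-- check of consecutive lanes `p, p+1, ..` against a list of codes -/
noncomputable def chkT (n : ℕ) (Z : List ℕ) (T : List ℕ) (S : List (ℕ × ℕ)) (tt ofs : ℕ)
    (d' : List ℕ) (us : List ℕ) : ℕ → Bool :=
  List.rec (motive := fun _ => ℕ → Bool) (fun _ => true)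
    (fun u _ ih p => @Bool.rec (fun _ => Bool) false (ih (Nat.succ p))
      (Nat.beq (Nat.add (gth T p) tt) (Nat.add (posP n Z S (dgs n u) d') ofs))) us

theorem brec_true {a b : Bool} (h : @Bool.rec (fun _ => Bool) false b a = true) :
    a = true ∧ b = true := by
  cases a with
  | false => exact absurd h (by simp)
  | true => exact ⟨rfl, h⟩

theorem chkT_spec (hn5 : 5 ≤ n) (hn7 : n ≤ 7) (A B : Fin n → Fin n → ZMod 3) (T : List ℕ)
    (hT : T.length = 32) (u' : ℕ) (S : List (ℕ × ℕ))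
    (hS : S = supR (Zl n) (RW A B) (cdF (dgs n u'))) (us : List ℕ) : ∀ p,
    chkT n (Zl n) T S (tot S) Ofs (dgs n u') us p = true →
    ∀ i < us.length, LaneOK A B T (p + i) (dec n (us.getD i 0)) (dec n u') := by
  induction us with
  | nil => intro p _ i hi; exact absurd hi (by simp)
  | cons u us ih =>
    intro p h i hi
    obtain ⟨h1, h2⟩ := brec_true (a := Nat.beq (Nat.add (gth T p) (tot S))
      (Nat.add (posP n (Zl n) S (dgs n u) (dgs n u')) Ofs))
      (b := chkT n (Zl n) T S (tot S) Ofs (dgs n u') us (Nat.succ p)) h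
    cases i with
    | zero =>
      have h3 := Nat.eq_of_beq_eq_true h1
      rw [add_zero]
      change LaneOK A B T p (dec n u) (dec n u')
      rw [← dl_dec n u'] at hS
      refine lane_ok hn5 hn7 A B T hT p _ _ S hS ?_
      rw [dl_dec, dl_dec]
      exact h3
    | succ i =>
      have h3 := ih (p + 1) h2 i (by simpa using hi)
      rw [List.getD_cons_succ]
      have : p + (i + 1) = p + 1 + i := by ring
      rw [this]
      exact h3

end

end Pool.Agent.Lib.MP_cfac74_al.Tab
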