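import Pool.Agent.Lib.MP_cfac74_al.Ch.Poly

/-!
# MP_cfac74_al : tables of the spectral function (32 packed arrays, lanes of 40 bits)
-/

set_option autoImplicit false
set_option linter.unusedSectionVars false

namespace Pool.Agent.Lib.MP_cfac74_al.Tab

open Finset Pool.Agent.Lib.MP_cfac74_al.Dec Pool.Agent.Lib.MP_cfac74_al.Ch

/-- the lane base -/
def W : ℕ := 1099511627776

theorem W_eq : W = 2 ^ 40 := by norm_num [W]

theorem W_pos : 0 < W := by norm_num [W]

/-- lane `i` -/
noncomputable def lane (A i : ℕ) : ℕ := Nat.mod (Nat.shiftRight A (Nat.mul 40 i)) 1099511627776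

theorem lane_eq (A i : ℕ) : lane A i = A / W ^ i % W := by
  have h : lane A i = A >>> (40 * i) % 1099511627776 := rfl
  have h2 : (1099511627776 : ℕ) = 2 ^ 40 := by norm_num
  rw [h, Nat.shiftRight_eq_div_pow, W_eq, ← pow_mul, h2]

theorem lane_lt (A i : ℕ) : lane A i < W := by
  rw [lane_eq]; exact Nat.mod_lt _ W_pos

theorem La_lanes (T p : ℕ) : T = La W p (lane T) + W ^ p * (T / W ^ p) := by
  induction p with
  | zero => rw [La_zero]; simp
  | succ p ih =>
    conv_lhs => rw [ih]
    rw [La_succ, pow_succ, ← Nat.div_div_eq_div_mul, lane_eq]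
    have := Nat.mod_add_div (T / W ^ p) W
    calc La W p (lane T) + W ^ p * (T / W ^ p)
        = La W p (lane T) + W ^ p * (T / W ^ p % W + W * (T / W ^ p / W)) := by rw [this]
      _ = _ := by ring

/-! ### monomials -/

/-- multiply all entries -/
noncomputable def mulAll (k : ℕ) (l : List ℕ) : List ℕ :=
  List.rec (motive := fun _ => List ℕ) [] (fun a _ ih => Nat.mul a k :: ih) l

theorem mulAll_eq (k : ℕ) (l : List ℕ) : mulAll k l = l.map (fun a => a * k) := by
  induction l with
  | nil => rfl
  | cons a l ih => rw [List.map_cons, ← ih]; rfl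

/-- concatenation -/
noncomputable def app (l l' : List ℕ) : List ℕ :=
  List.rec (motive := fun _ => List ℕ) l' (fun a _ ih => a :: ih) l

theorem app_eq (l l' : List ℕ) : app l l' = l ++ l' := by
  induction l with
  | nil => rfl
  | cons a l ih => rw [List.cons_append, ← ih]; rfl

/-- all monomials, in the order of the bit masks -/
noncomputable def monz (z : ℕ → ℕ) (m : ℕ) : List ℕ :=
  Nat.rec (motive := fun _ => List ℕ) [1] (fun m ih => app ih (mulAll (z m) ih)) m

theorem monz_eq (z : ℕ → ℕ) (m : ℕ) : monz z m = (List.range (2 ^ m)).map (kS m z) := by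
  induction m with
  | zero => simp [monz, kS]
  | succ m ih =>
    have h : monz z (m + 1) = app (monz z m) (mulAll (z m) (monz z m)) := rfl
    rw [h, app_eq, mulAll_eq, ih]
    have h1 : 2 ^ (m + 1) = 2 ^ m + 2 ^ m := by ring
    rw [h1, List.range_add, List.map_append, List.map_map, List.map_map]
    congr 1
    · refine List.map_congr_left fun S hS => ?_
      rw [kS_succ_low m z S (List.mem_range.1 hS)]
    · refine List.map_congr_left fun S hS => ?_
      simp only [Function.comp]
      rw [kS_succ_high m z S (List.mem_range.1 hS)]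

/-- scalar product of two lists -/
noncomputable def evT (T : List ℕ) : List ℕ → ℕ :=
  List.rec (motive := fun _ => List ℕ → ℕ) (fun _ => 0)
    (fun t _ ih l => List.rec (motive := fun _ => ℕ) 0 (fun a l' _ => Nat.add (Nat.mul t a) (ih l')) l)
    T

theorem evT_range' (T : List ℕ) (g : ℕ → ℕ) : ∀ a N, T.length = N →
    evT T ((List.range' a N).map g) = ∑ S ∈ range N, T.getD S 0 * g (a + S) := by
  induction T with
  | nil => intro a N h; subst h; rfl
  | cons t T ih =>
    intro a N h
    obtain ⟨N, rfl⟩ : ∃ N', N = N' + 1 := ⟨T.length, h.symm⟩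
    rw [List.range'_succ, List.map_cons, Finset.sum_range_succ']
    have h1 : evT (t :: T) (g a :: (List.range' (a + 1) N).map g) =
        t * g a + evT T ((List.range' (a + 1) N).map g) := rfl
    rw [h1, ih (a + 1) N (by simpa using h), add_comm]
    congr 1
    refine Finset.sum_congr rfl fun S _ => ?_
    rw [List.getD_cons_succ]
    congr 2
    ring

theorem evT_monz (T : List ℕ) (z : ℕ → ℕ) (m : ℕ) (hT : T.length = 2 ^ m) :
    evT T (monz z m) = ∑ S ∈ range (2 ^ m), T.getD S 0 * kS m z S := by
  rw [monz_eq, List.range_eq_range', evT_range' T _ 0 (2 ^ m) hT]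
  exact Finset.sum_congr rfl fun S _ => by rw [zero_add]

/-- reading a lane of a linear combination -/
theorem lane_lin (N : ℕ) (t a : ℕ → ℕ) (p : ℕ)
    (h : ∀ q ≤ p, ∑ S ∈ range N, lane (t S) q * a S < W) :
    lane (∑ S ∈ range N, t S * a S) p = ∑ S ∈ range N, lane (t S) p * a S := by
  have h1 : ∑ S ∈ range N, t S * a S = La W (p + 1) (fun q => ∑ S ∈ range N, lane (t S) q * a S) +
      W ^ (p + 1) * (∑ S ∈ range N, (t S / W ^ (p + 1)) * a S) := by
    have h2 : La W (p + 1) (fun q => ∑ S ∈ range N, lane (t S) q * a S) =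
        ∑ S ∈ range N, La W (p + 1) (lane (t S)) * a S := by
      unfold La
      simp_rw [Finset.sum_mul]
      rw [Finset.sum_comm]
      exact Finset.sum_congr rfl fun S _ => Finset.sum_congr rfl fun q _ => by ring
    rw [h2, Finset.mul_sum, ← Finset.sum_add_distrib]
    refine Finset.sum_congr rfl fun S _ => ?_
    conv_lhs => rw [La_lanes (t S) (p + 1)]
    ring
  rw [h1, lane_eq, pow_succ]
  have h3 : La W (p + 1) (fun q => ∑ S ∈ range N, lane (t S) q * a S) =
      La W p (fun q => ∑ S ∈ range N, lane (t S) q * a S) +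
        (∑ S ∈ range N, lane (t S) p * a S) * W ^ p := La_succ _ _ _
  have h4 : La W p (fun q => ∑ S ∈ range N, lane (t S) q * a S) < W ^ p :=
    La_lt W p _ fun i hi => h i (by omega)
  rw [h3]
  have h5 : La W p (fun q => ∑ S ∈ range N, lane (t S) q * a S) +
      (∑ S ∈ range N, lane (t S) p * a S) * W ^ p +
      W ^ p * W * (∑ S ∈ range N, t S / (W ^ p * W) * a S) =
      La W p (fun q => ∑ S ∈ range N, lane (t S) q * a S) +
      W ^ p * ((∑ S ∈ range N, lane (t S) p * a S) +
        W * (∑ S ∈ range N, t S / (W ^ p * W) * a S)) := by ring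
  rw [h5, Nat.add_mul_div_left _ _ (Nat.pow_pos W_pos), Nat.div_eq_of_lt h4, zero_add,
    Nat.add_mul_mod_self_left, Nat.mod_eq_of_lt (h p le_rfl)]

theorem sum_kS (m : ℕ) (z : ℕ → ℕ) : ∑ S ∈ range (2 ^ m), kS m z S = ∏ j ∈ range m, (1 + z j) := by
  have h := prod_expand m (fun _ => 1) (fun j => (z j : ℤ))
  have h2 : ((∏ j ∈ range m, (1 + z j) : ℕ) : ℤ) = ((∑ S ∈ range (2 ^ m), kS m z S : ℕ) : ℤ) := by
    push_cast
    rw [h]
    refine Finset.sum_congr rfl fun S _ => ?_
    unfold kS
    push_cast
    rfl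
  exact_mod_cast h2.symm

/-! ### vectors from codes -/

/-- vector with code `u` -/
def dec (n u : ℕ) (j : Fin n) : ZMod 3 := ((u / 3 ^ (j : ℕ) : ℕ) : ZMod 3)

/-- digits -/
noncomputable def dgs (n : ℕ) : ℕ → List ℕ :=
  Nat.rec (motive := fun _ => ℕ → List ℕ) (fun _ => [])
    (fun _ ih u => Nat.mod u 3 :: ih (Nat.div u 3)) n

theorem dl_dec (n : ℕ) : ∀ u, dl (dec n u) = dgs n u := by
  induction n with
  | zero => intro u; rfl
  | succ n ih =>
    intro u
    have h : dgs (n + 1) u = u % 3 :: dgs n (u / 3) := rfl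
    rw [h, ← ih]
    unfold dl
    rw [List.ofFn_succ]
    congr 1
    · change ((u / 3 ^ 0 : ℕ) : ZMod 3).val = u % 3
      rw [pow_zero, Nat.div_one, ZMod.val_natCast]
    · congr 1
      funext i
      change ((u / 3 ^ ((i.succ : Fin (n + 1)) : ℕ) : ℕ) : ZMod 3).val =
        ((u / 3 / 3 ^ (i : ℕ) : ℕ) : ZMod 3).val
      rw [Fin.val_succ, pow_succ, Nat.mul_comm, ← Nat.div_div_eq_div_mul]

/-- code of a list of digits -/
noncomputable def cod (l : List ℕ) : ℕ :=
  List.rec (motive := fun _ => ℕ) 0 (fun d _ ih => Nat.add d (Nat.mul 3 ih)) l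

theorem dec_cod (n : ℕ) : ∀ y : Fin n → ZMod 3, dec n (cod (dl y)) = y := by
  induction n with
  | zero => intro y; funext j; exact j.elim0
  | succ n ih =>
    intro y
    have h : cod (dl y) = (y 0).val + 3 * cod (dl fun i => y i.succ) := by
      unfold dl; rw [List.ofFn_succ]; rfl
    have hv := ZMod.val_lt (y 0)
    funext j
    rw [h]
    unfold dec
    refine Fin.cases ?_ (fun i => ?_) j
    · change (((((y 0).val + 3 * cod (dl fun i => y i.succ)) / 3 ^ 0 : ℕ)) : ZMod 3) = y 0
      rw [pow_zero, Nat.div_one]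
      push_cast
      have h3 : (3 : ZMod 3) = 0 := rfl
      rw [h3, zero_mul, add_zero, natCast_val3]
    · rw [Fin.val_succ, pow_succ, Nat.mul_comm (3 ^ (i : ℕ)) 3, ← Nat.div_div_eq_div_mul]
      have h4 : ((y 0).val + 3 * cod (dl fun i => y i.succ)) / 3 = cod (dl fun i => y i.succ) := by
        omega
      rw [h4]
      have := congrFun (ih (fun i => y i.succ)) i
      unfold dec at this
      exact this

/-- sum of two digit lists -/
noncomputable def addL (l : List ℕ) : List ℕ → List ℕ :=
  List.rec (motive := fun _ => List ℕ → List ℕ) (fun _ => [])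
    (fun a _ ih l' => List.rec (motive := fun _ => List ℕ) []
      (fun b l'' _ => Nat.mod (Nat.add a b) 3 :: ih l'') l') l

theorem addL_dl (n : ℕ) : ∀ x y : Fin n → ZMod 3, addL (dl x) (dl y) = dl (x + y) := by
  induction n with
  | zero => intro x y; rfl
  | succ n ih =>
    intro x y
    unfold dl
    rw [List.ofFn_succ, List.ofFn_succ, List.ofFn_succ]
    have h : addL ((x 0).val :: List.ofFn fun i => (x i.succ).val)
        ((y 0).val :: List.ofFn fun i => (y i.succ).val) =
        ((x 0).val + (y 0).val) % 3 :: addL (List.ofFn fun i => (x i.succ).val)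
          (List.ofFn fun i => (y i.succ).val) := rfl
    rw [h]
    congr 1
    exact ih (fun i => x i.succ) (fun i => y i.succ)

end Pool.Agent.Lib.MP_cfac74_al.Tab
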