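import Pool.Agent.Lib.MP_cfac74_al.Tab.Plane

/-!
# MP_cfac74_al : assembling the checks of a table
-/

set_option autoImplicit false
set_option linter.unusedSectionVars false

namespace Pool.Agent.Lib.MP_cfac74_al.Tab

open Finset Pool.Agent.Lib.MP_cfac74_al.Dec Pool.Agent.Lib.MP_cfac74_al.Ch

section

variable {n : ℕ} {A B : Fin n → Fin n → ZMod 3}

theorem dec_zero (n : ℕ) : dec n 0 = 0 := by
  funext j
  unfold dec
  rw [Nat.zero_div]
  rfl

/-- one chunk of planes -/
theorem chunk_ok (hn5 : 5 ≤ n) (hn7 : n ≤ 7) {Z : List ℕ} (hZ : Zl n = Z)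
    {R : List ℕ × List ℕ × List ℕ × List ℕ} (hR : RW A B = R) {o : ℕ} (ho : Ofs = o)
    {pts TE : List ℕ} (hT : TE.length = 32) (hpts : ∀ u ∈ pts, u < 65536) {NP D u' : ℕ}
    {us : List ℕ} {off : ℕ}
    (h1 : chkT n Z TE (supR Z R (cdF (dgs n u'))) (tot (supR Z R (cdF (dgs n u')))) o
      (dgs n u') us off = true)
    (h2 : chkD n (pkc pts) NP D (dgs n u') us off = true) :
    ∀ p, off ≤ p → p < off + us.length →
      ∃ b b' : Fin n → ZMod 3, LaneOK A B TE p b b' ∧ PlOK n pts NP D p b b' := by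
  subst hZ hR ho
  intro p hp hp'
  obtain ⟨i, rfl⟩ : ∃ i, p = off + i := ⟨p - off, by omega⟩
  exact ⟨_, _, chkT_spec hn5 hn7 A B TE hT u' _ rfl us off h1 i (by omega),
    chkD_spec pts hpts NP D u' us off h2 i (by omega)⟩

/-- the table of the lines -/
theorem lines_ok (hn5 : 5 ≤ n) (hn7 : n ≤ 7) {Z : List ℕ} (hZ : Zl n = Z)
    {R : List ℕ × List ℕ × List ℕ × List ℕ} (hR : RW A B = R) {o : ℕ} (ho : Ofs = o)
    {pts TL : List ℕ} (hT : TL.length = 32)
    (h1 : chkT n Z TL (supR Z R (cdF (dgs n 0))) (tot (supR Z R (cdF (dgs n 0)))) o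
      (dgs n 0) (pts ++ [0]) 0 = true) :
    Small TL (pts.length + 1) ∧ (∀ i < pts.length, LaneOK A B TL i (ptv n pts i) 0) ∧
      LaneOK A B TL pts.length 0 0 := by
  subst hZ hR ho
  have h := chkT_spec hn5 hn7 A B TL hT 0 _ rfl (pts ++ [0]) 0 h1
  rw [List.length_append, List.length_singleton, dec_zero] at h
  have hp : ∀ i < pts.length, LaneOK A B TL i (ptv n pts i) 0 := by
    intro i hi
    have h2 := h i (by omega)
    rw [zero_add, List.getD_append _ _ _ _ hi] at h2
    exact h2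
  have hz : LaneOK A B TL pts.length 0 0 := by
    have h2 := h pts.length (by omega)
    rw [zero_add, List.getD_append_right _ _ _ _ le_rfl, Nat.sub_self, List.getD_cons_zero,
      dec_zero] at h2
    exact h2
  refine ⟨fun i hi => ?_, hp, hz⟩
  rcases Nat.lt_or_ge i pts.length with h3 | h3
  · exact (hp i h3).1
  · have : i = pts.length := by omega
    rw [this]
    exact hz.1

/-- **assembly** -/
theorem geo_of {pts TL TE : List ℕ} {D NU : ℕ} (hTL : TL.length = 32) (hTE : TE.length = 32)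
    (h1 : Small TL (pts.length + 1) ∧ (∀ i < pts.length, LaneOK A B TL i (ptv n pts i) 0) ∧
      LaneOK A B TL pts.length 0 0)
    (h2 : ∀ p < NU, ∃ b b' : Fin n → ZMod 3,
      LaneOK A B TE p b b' ∧ PlOK n pts pts.length D p b b') :
    Geo A B pts TL TE D pts.length NU :=
  ⟨hTL, hTE, h1.1, fun p hp => by
    obtain ⟨b, b', h3, _⟩ := h2 p hp
    exact h3.1, h1.2.1, h1.2.2, h2⟩

end

end Pool.Agent.Lib.MP_cfac74_al.Tab
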